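import Mathlib

set_option autoImplicit false

namespace Pool.Agent.H.MP_75d27e_nt

/-- `l` is an `m`-product sequence: non-decreasing, product an `m`-th power, every value occurs
at most `m - 1` times -/
def IsProdSeq (m : ℕ) (l : List ℕ) : Prop :=
  l.Pairwise (· ≤ ·) ∧ (∃ R : ℕ, l.prod = R ^ m) ∧ ∀ a, l.count a ≤ m - 1

/-- the last terms of the `m`-product sequences with first term `n`; `g_m(n)` is its least
element -/
def Ends (m n : ℕ) : Set ℕ :=
  {s | ∃ l : List ℕ, IsProdSeq m l ∧ l.head? = some n ∧ l.getLast? = some s}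

end Pool.Agent.H.MP_75d27e_nt
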