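import Mathlib
import Pool.Agent.H.MP_75d27e_nt.Defs

set_option autoImplicit false

namespace Pool.Agent.H.MP_75d27e_nt

open Finset

lemma bounds {l : List ℕ} {n s : ℕ} (h : l.Pairwise (· ≤ ·)) (h1 : l.head? = some n)
    (h2 : l.getLast? = some s) : s ∈ l ∧ ∀ a ∈ l, n ≤ a ∧ a ≤ s := by
  refine ⟨List.mem_of_getLast? h2, fun a ha => ⟨?_, ?_⟩⟩
  · obtain ⟨t, rfl⟩ := List.head?_eq_some_iff.1 h1
    rcases List.mem_cons.1 ha with rfl | h3
    · exact le_rfl
    · exact List.rel_of_pairwise_cons h h3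
  · obtain ⟨t, rfl⟩ := List.getLast?_eq_some_iff.1 h2
    rcases List.mem_append.1 ha with h3 | h3
    · exact (List.pairwise_append.1 h).2.2 a h3 s (by simp)
    · simp at h3
      omega

lemma fact_count (s : ℕ) (hs : s.Prime) : ∀ l : List ℕ, (∀ a ∈ l, 1 ≤ a ∧ a ≤ s) →
    l.prod ≠ 0 ∧ l.prod.factorization s = l.count s := by
  intro l
  induction l with
  | nil => simp
  | cons a l ih =>
    intro h
    obtain ⟨h0, h1⟩ := ih (fun b hb => h b (List.mem_cons_of_mem _ hb))
    obtain ⟨h2, h3⟩ := h a List.mem_cons_self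
    refine ⟨by simp only [List.prod_cons]; positivity, ?_⟩
    rw [List.prod_cons, Nat.factorization_mul (by omega) h0, Finsupp.add_apply, h1]
    rcases eq_or_ne a s with rfl | h4
    · rw [hs.factorization_self, List.count_cons_self, add_comm]
    · rw [List.count_cons_of_ne h4, Nat.factorization_eq_zero_of_lt (by omega), zero_add]

lemma ends_not_prime {m n s : ℕ} (hm : 1 ≤ m) (hn : 1 ≤ n) (h : s ∈ Ends m n) :
    n ≤ s ∧ ¬ s.Prime := by
  obtain ⟨l, ⟨h1, ⟨R, hR⟩, h3⟩, h4, h5⟩ := h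
  obtain ⟨h6, h7⟩ := bounds h1 h4 h5
  refine ⟨(h7 s h6).1, fun hs => ?_⟩
  obtain ⟨-, h8⟩ := fact_count s hs l (fun a ha => ⟨hn.trans (h7 a ha).1, (h7 a ha).2⟩)
  rw [hR, Nat.factorization_pow, Finsupp.smul_apply, smul_eq_mul] at h8
  have h9 := h3 s
  have h10 : 0 < l.count s := List.count_pos_iff.2 h6
  have := Nat.le_of_dvd h10 ⟨_, h8.symm⟩
  omega

lemma rel (m n S : ℕ) (hm : 1 ≤ m) (c : ℕ → ℕ) (hc : ∀ a, c a < m) (hn : n ∈ Icc 1 S)
    (h0 : c n ≠ 0) (h1 : ∀ a ∈ Icc 1 S, a < n → c a = 0)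
    (h2 : ∀ q, q.Prime → q ≤ S → m ∣ ∑ a ∈ Icc 1 S, c a * a.factorization q) :
    ∃ s ≤ S, s ∈ Ends m n := by
  set T : Multiset ℕ := ∑ a ∈ Icc 1 S, Multiset.replicate (c a) a with hT
  have hcount : ∀ a, T.count a = if a ∈ Icc 1 S then c a else 0 := by
    intro a
    rw [hT, Multiset.count_sum']
    simp only [Multiset.count_replicate]
    rw [Finset.sum_ite_eq']
  have hmem : ∀ a ∈ T, n ≤ a ∧ a ≤ S := by
    intro a ha
    have := Multiset.count_ne_zero.2 ha
    rw [hcount] at this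
    split_ifs at this with h
    · refine ⟨?_, (mem_Icc.1 h).2⟩
      by_contra! h3
      exact this (h1 a h h3)
    · exact absurd rfl this
  have hnT : n ∈ T := by
    rw [← Multiset.count_ne_zero, hcount, if_pos hn]
    exact h0
  have hprod : T.prod = ∏ a ∈ Icc 1 S, a ^ c a := by
    rw [hT, Multiset.prod_sum]
    simp only [Multiset.prod_replicate]
  have hne : ∀ a ∈ Icc 1 S, a ^ c a ≠ 0 := fun a ha => by
    have := (mem_Icc.1 ha).1
    positivity
  have hfac : ∀ q, T.prod.factorization q = ∑ a ∈ Icc 1 S, c a * a.factorization q := by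
    intro q
    rw [hprod, Nat.factorization_prod hne, Finsupp.finset_sum_apply]
    simp only [Nat.factorization_pow, Finsupp.smul_apply, smul_eq_mul]
  have hdiv : ∀ q, m ∣ T.prod.factorization q := by
    intro q
    by_cases hq : q.Prime
    · rw [hfac]
      rcases le_or_gt q S with h | h
      · exact h2 q hq h
      · refine dvd_sum fun a ha => ?_
        rw [Nat.factorization_eq_zero_of_lt ((mem_Icc.1 ha).2.trans_lt h)]
        simp
    · rw [Nat.factorization_eq_zero_of_not_prime _ hq]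
      simp
  have hR : ∃ R : ℕ, T.prod = R ^ m := by
    have hT0 : T.prod ≠ 0 := by
      rw [hprod]
      exact prod_ne_zero_iff.2 hne
    refine ⟨∏ q ∈ T.prod.primeFactors, q ^ (T.prod.factorization q / m), ?_⟩
    rw [← prod_pow]
    conv_lhs => rw [← Nat.factorization_prod_pow_eq_self hT0]
    refine prod_congr rfl fun q _ => ?_
    rw [← pow_mul, Nat.div_mul_cancel (hdiv q)]
  set l := T.sort (· ≤ ·) with hl
  have hlT : (l : Multiset ℕ) = T := Multiset.sort_eq _ _
  have hls : l.Pairwise (· ≤ ·) := Multiset.pairwise_sort _ _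
  have hml : ∀ a, a ∈ l ↔ a ∈ T := fun a => by rw [← hlT]; simp
  have hl0 : l ≠ [] := List.ne_nil_of_mem ((hml n).2 hnT)
  have e1 := List.head?_eq_some_head hl0
  have e2 := List.getLast?_eq_some_getLast hl0
  obtain ⟨b1, b2⟩ := bounds hls e1 e2
  have e3 : l.head hl0 = n :=
    le_antisymm (b2 n ((hml n).2 hnT)).1 (hmem _ ((hml _).1 (List.head_mem hl0))).1
  refine ⟨l.getLast hl0, (hmem _ ((hml _).1 b1)).2, l, ⟨hls, ?_, fun a => ?_⟩, e3 ▸ e1, e2⟩
  · rw [← Multiset.prod_coe, hlT]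
    exact hR
  · rw [← Multiset.coe_count, hlT, hcount]
    have := hc a
    split_ifs <;> omega

open Classical in
lemma few (m p : ℕ) (hp : 1 ≤ p) (hpm : p < m) :
    #((Ico 1 (2 ^ p)).filter (fun n => ¬ ∃ s ≤ 2 ^ p, s ∈ Ends m n)) <
      #((Icc 1 (2 ^ p)).filter Nat.Prime) := by
  set S := 2 ^ p with hS
  have hS2 : 2 ≤ S := by
    calc 2 = 2 ^ 1 := by norm_num
      _ ≤ S := Nat.pow_le_pow_right (by norm_num) hp
  set Y := (Ico 1 S).filter (fun n => ¬ ∃ s ≤ S, s ∈ Ends m n) with hY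
  set Q := (Icc 1 S).filter Nat.Prime with hQ
  haveI : NeZero m := ⟨by omega⟩
  haveI : Fact (1 < m) := ⟨by omega⟩
  let ext : (Y → ZMod m) × Bool → ℕ → ZMod m := fun t a =>
    if h : a ∈ Y then t.1 ⟨a, h⟩ else if a = S ∧ t.2 = true then 1 else 0
  let F : (Y → ZMod m) × Bool → (Q → ZMod m) := fun t q =>
    ∑ a ∈ Icc 1 S, ext t a * (a.factorization q : ℕ)
  have hSY : S ∉ Y := by simp [hY]
  have hinj : Function.Injective F := by
    intro t t' htt
    let c : ℕ → ℕ := fun a => (ext t a - ext t' a).val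
    have hsum : ∀ q, q.Prime → q ≤ S →
        ∑ a ∈ Icc 1 S, (ext t a - ext t' a) * (a.factorization q : ℕ) = 0 := by
      intro q hq hqS
      have := congrFun htt ⟨q, mem_filter.2 ⟨mem_Icc.2 ⟨hq.one_le, hqS⟩, hq⟩⟩
      simp only [F] at this
      simp only [sub_mul, sum_sub_distrib, this, sub_self]
    have hz : ∀ a ∈ Y, ext t a = ext t' a := by
      by_contra! hcon
      have hex : ∃ a, a ∈ Y ∧ ext t a ≠ ext t' a := hcon
      obtain ⟨ha, hne⟩ := Nat.find_spec hex
      have hmin := fun b => Nat.find_min hex (m := b)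
      generalize Nat.find hex = n at *
      have hn := mem_filter.1 ha
      have hn1 := mem_Ico.1 hn.1
      refine hn.2 (rel m n S (by omega) c (fun a => ZMod.val_lt _) (mem_Icc.2 ⟨hn1.1, hn1.2.le⟩)
        ?_ ?_ ?_)
      · simpa [c, sub_eq_zero] using hne
      · intro a _ han
        have h1 := hmin a han
        simp only [c, ZMod.val_eq_zero, sub_eq_zero]
        by_cases haY : a ∈ Y
        · by_contra h2
          exact h1 ⟨haY, h2⟩
        · have : a ≠ S := by omega
          simp [ext, haY, this]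
      · intro q hq hqS
        rw [← ZMod.natCast_eq_zero_iff]
        push_cast
        simp only [c, ZMod.natCast_zmod_val]
        exact hsum q hq hqS
    have h1 : t.1 = t'.1 := by
      funext a
      have := hz a a.2
      simpa [ext] using this
    have h2 := hsum 2 Nat.prime_two hS2
    rw [sum_eq_single S] at h2
    · have h3 : S.factorization 2 = p := by
        rw [hS, Nat.factorization_pow, Finsupp.smul_apply, Nat.prime_two.factorization_self]
        simp
      have h4 : (p : ZMod m) ≠ 0 := by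
        rw [Ne, ZMod.natCast_eq_zero_iff]
        intro h
        have := Nat.le_of_dvd (by omega) h
        omega
      rw [h3] at h2
      refine Prod.ext h1 ?_
      rcases hb : t.2 <;> rcases hb' : t'.2 <;> simp [ext, hSY, hb, hb', h4] at h2 ⊢
    · intro a _ haS
      by_cases haY : a ∈ Y
      · rw [hz a haY]
        simp
      · simp [ext, haY, haS]
    · intro h
      exact absurd (mem_Icc.2 ⟨by omega, le_rfl⟩) h
  have hcard := Fintype.card_le_of_injective F hinj
  simp only [Fintype.card_prod, Fintype.card_fun, ZMod.card, Fintype.card_coe,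
    Fintype.card_bool] at hcard
  by_contra! hle
  have h1 : m ^ #Q ≤ m ^ #Y := Nat.pow_le_pow_right (by omega) hle
  have h2 : 0 < m ^ #Y := by
    have : 0 < m := by omega
    positivity
  omega

open Classical in
theorem collide (m : ℕ) (hm : 2 ≤ m) (hc : ¬ m.Prime) :
    ∃ n₁ n₂ s : ℕ, n₁ ≠ n₂ ∧ IsLeast (Ends m n₁) s ∧ IsLeast (Ends m n₂) s := by
  obtain ⟨p, hpd, hp2, hpm⟩ := Nat.exists_dvd_of_not_prime2 hm hc
  have hfew := few m p (by omega) hpm
  obtain ⟨u, hu⟩ := hpd
  set S := 2 ^ p with hS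
  have hS1 : 1 ≤ S := Nat.one_le_two_pow
  set Y := (Ico 1 S).filter (fun n => ¬ ∃ s ≤ S, s ∈ Ends m n) with hY
  set Q := (Icc 1 S).filter Nat.Prime with hQ
  have hu0 : 0 < u := by
    rcases Nat.eq_zero_or_pos u with rfl | h
    · omega
    · exact h
  have hum : u < m := by nlinarith
  have hSS : ∃ s ≤ S, s ∈ Ends m S := by
    refine ⟨S, le_rfl, List.replicate u S, ⟨?_, ⟨2, ?_⟩, fun a => ?_⟩, ?_, ?_⟩
    · exact List.pairwise_replicate.2 (Or.inr le_rfl)
    · rw [List.prod_replicate, hS, ← pow_mul, hu]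
    · rw [List.count_replicate]
      split_ifs <;> omega
    · rw [List.head?_replicate, if_neg (by omega)]
    · rw [List.getLast?_replicate, if_neg (by omega)]
  have hX : ∀ n ∈ Icc 1 S \ Y, ∃ s ≤ S, s ∈ Ends m n := by
    intro n hn
    rw [mem_sdiff, mem_Icc] at hn
    rcases eq_or_lt_of_le hn.1.2 with rfl | h
    · exact hSS
    · by_contra h2
      exact hn.2 (mem_filter.2 ⟨mem_Ico.2 ⟨hn.1.1, h⟩, h2⟩)
  have hYs : Y ⊆ Icc 1 S := (filter_subset _ _).trans Ico_subset_Icc_self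
  have hQs : Q ⊆ Icc 1 S := filter_subset _ _
  have hleast : ∀ n ∈ Icc 1 S \ Y, IsLeast (Ends m n) (sInf (Ends m n)) := by
    intro n hn
    obtain ⟨s, -, hs⟩ := hX n hn
    exact ⟨Nat.sInf_mem ⟨s, hs⟩, fun b hb => Nat.sInf_le hb⟩
  have hlt : #(Icc 1 S \ Q) < #(Icc 1 S \ Y) := by
    rw [card_sdiff_of_subset hYs, card_sdiff_of_subset hQs]
    have := card_le_card hQs
    omega
  obtain ⟨a, ha, b, hb, hab, he⟩ := exists_ne_map_eq_of_card_lt_of_maps_to hlt
    (f := fun n => sInf (Ends m n)) (by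
      intro n hn
      have hn' : n ∈ Icc 1 S \ Y := hn
      obtain ⟨s, hsS, hs⟩ := hX n hn'
      have h1 := (mem_Icc.1 (mem_sdiff.1 hn').1).1
      obtain ⟨h2, h3⟩ := ends_not_prime (by omega) h1 (hleast n hn').1
      have h4 := (hleast n hn').2 hs
      refine mem_coe.2 (mem_sdiff.2 ⟨mem_Icc.2 ⟨h1.trans h2, h4.trans hsS⟩, fun h => ?_⟩)
      exact h3 (mem_filter.1 h).2)
  refine ⟨a, b, _, hab, hleast a ha, ?_⟩
  have he' : sInf (Ends m a) = sInf (Ends m b) := he
  rw [he']
  exact hleast b hb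

end Pool.Agent.H.MP_75d27e_nt
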